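import Pool.Agent.H773.CS.Stm

/-!
Bits and labels: the bounds which come from the doubling lemma (`S_bit`, `S_labA`).
-/

set_option autoImplicit false

open Finset

namespace Pool.Agent.H331.CS

open Pool.Agent.H773.CS

lemma cnt (P : ℕ) [NeZero P] (S : Set (Blk P)) (T : Finset (ZMod P × Bool))
    (h : ∀ b ∈ S, b.2.2.2 ∈ T) : (S.ncard : ℝ) ≤ 32 * (P : ℝ) ^ 3 * T.card := by
  have h1 : S ⊆ (((univ : Finset (ZMod P × Bool)) ×ˢ (univ : Finset (ZMod P × Bool × Bool)) ×ˢ
      (univ : Finset (ZMod P × Bool × Bool)) ×ˢ T : Finset (Blk P)) : Set (Blk P)) := by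
    intro b hb
    rw [mem_coe, mem_product, mem_product, mem_product]
    exact ⟨mem_univ _, mem_univ _, mem_univ _, h b hb⟩
  have h2 := Set.ncard_le_ncard h1 (Finset.finite_toSet _)
  rw [Set.ncard_coe_finset, card_product, card_product, card_product, card_univ, card_univ,
    Fintype.card_prod, Fintype.card_prod, Fintype.card_prod, ZMod.card, Fintype.card_bool] at h2
  have h3 : (S.ncard : ℝ) ≤ ((P * 2 * (P * (2 * 2) * (P * (2 * 2) * T.card)) : ℕ) : ℝ) := by
    exact_mod_cast h2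
  refine h3.trans (le_of_eq ?_)
  push_cast
  ring

theorem t_bit (hD : S_D) : S_bit := by
  intro P q _ hP τ
  have h1 := hD P hP (fun v => ((bv (τ v) : ℤ) : ZMod 2))
  have h2 := cnt P {b : Blk P | BitOK (dig b) (fun r => τ (bvar b r))}
    (univ.filter (fun v : ZMod P × Bool =>
      ((bv (τ v) : ℤ) : ZMod 2) = ((bv (τ (zf v.1, false)) : ℤ) : ZMod 2) +
        ((bv (τ (zf v.1, true)) : ℤ) : ZMod 2) ∧
      ((bv (τ v) : ℤ) : ZMod 2) = ((bv (τ (rf v.1, false)) : ℤ) : ZMod 2) +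
        ((bv (τ (rf v.1, true)) : ℤ) : ZMod 2) + 1)) (by
    intro b hb
    obtain ⟨-, -, -, h4, h5⟩ := hb
    rw [mem_filter]
    have e4 : bv (τ b.2.2.2) = bv (τ (zf b.2.2.2.1, false)) + bv (τ (zf b.2.2.2.1, true)) := h4
    have e5 : bv (τ b.2.2.2) = bv (τ (rf b.2.2.2.1, false)) + bv (τ (rf b.2.2.2.1, true)) - 1 := h5
    have n1 : (-1 : ZMod 2) = 1 := by decide
    refine ⟨mem_univ _, ?_, ?_⟩
    · rw [e4, Int.cast_add]
    · rw [e5, Int.cast_sub, Int.cast_add, Int.cast_one, sub_eq_add_neg, n1])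
  refine h2.trans ?_
  have h3 : (0 : ℝ) ≤ 32 * (P : ℝ) ^ 3 := by positivity
  refine (mul_le_mul_of_nonneg_left h1 h3).trans (le_of_eq ?_)
  ring

lemma fibc (P : ℕ) [NeZero P] (e : ℕ) (he : e ≤ P) (B : Finset (ZMod P × Bool)) (c : Bool) :
    (univ.filter (fun v : ZMod P × Bool =>
      ((((v.1.val + e) / 2 : ℕ) : ZMod P), c) ∈ B)).card ≤ 4 * B.card := by
  refine card_le_mul_card_image_of_maps_to
    (f := fun v : ZMod P × Bool => ((((v.1.val + e) / 2 : ℕ) : ZMod P), c)) ?_ 4 ?_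
  · intro v hv
    exact (mem_filter.1 hv).2
  · intro w _
    have h1 : (range 2 ×ˢ (univ : Finset Bool)).card = 4 := by
      rw [card_product, card_range, card_univ, Fintype.card_bool]
    rw [← h1]
    refine card_le_card_of_injOn (fun v : ZMod P × Bool => ((v.1.val + e) % 2, v.2)) ?_ ?_
    · intro v _
      simp only [coe_product, coe_range, coe_univ, Set.mem_prod, Set.mem_Iio, Set.mem_univ,
        and_true]
      exact Nat.mod_lt _ (by norm_num)
    · intro v hv v' hv' h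
      rw [mem_coe, mem_filter] at hv hv'
      have a1 : (((v.1.val + e) / 2 : ℕ) : ZMod P) = (((v'.1.val + e) / 2 : ℕ) : ZMod P) := by
        have := hv.2.trans hv'.2.symm
        exact congrArg Prod.fst this
      have b1 : (v.1.val + e) % 2 = (v'.1.val + e) % 2 := (Prod.ext_iff.1 h).1
      have b2 : v.2 = v'.2 := (Prod.ext_iff.1 h).2
      have c1 := ZMod.val_lt v.1
      have c2 := ZMod.val_lt v'.1
      have a2 := congrArg ZMod.val a1
      rw [ZMod.val_cast_of_lt (by omega), ZMod.val_cast_of_lt (by omega)] at a2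
      have a3 : v.1.val = v'.1.val := by omega
      exact Prod.ext (ZMod.val_injective P a3) b2

/-- the label of a vertex -/
def gl {P q : ℕ} (τ : ZMod P × Bool → Sym q) (v : ZMod P × Bool) : ZMod 2 :=
  match τ v with
  | .A t => t
  | _ => 0

lemma gl_eq {P q : ℕ} (τ : ZMod P × Bool → Sym q) (v : ZMod P × Bool) (t : ZMod 2)
    (h : τ v = .A t) : gl τ v = t := by
  unfold gl
  rw [h]

open Classical in
theorem t_labA (hD : S_D) : S_labA := by
  intro P q _ hP τ
  have h1 := hD P hP (gl τ)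
  obtain ⟨B, hB⟩ : ∃ B : Finset (ZMod P × Bool),
      B = univ.filter (fun v : ZMod P × Bool => ¬ ∃ t, τ v = .A t) := ⟨_, rfl⟩
  obtain ⟨T, hT⟩ : ∃ T : Finset (ZMod P × Bool), T =
    univ.filter (fun v : ZMod P × Bool => gl τ v = gl τ (zf v.1, false) + gl τ (zf v.1, true) ∧
     gl τ v = gl τ (rf v.1, false) + gl τ (rf v.1, true) + 1) := ⟨_, rfl⟩
  have hBc : (Set.ncard {v : ZMod P × Bool | ¬ ∃ t, τ v = .A t}) = B.card := by
    rw [← Set.ncard_coe_finset]
    congr 1
    ext v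
    rw [hB, mem_coe, mem_filter]
    exact ⟨fun h => ⟨mem_univ _, h⟩, fun h => h.2⟩
  obtain ⟨Z, hZ⟩ : ∃ Z : Bool → Finset (ZMod P × Bool), Z = fun c => univ.filter
      (fun v : ZMod P × Bool => ((((v.1.val + 0) / 2 : ℕ) : ZMod P), c) ∈ B) := ⟨_, rfl⟩
  obtain ⟨R, hR⟩ : ∃ R : Bool → Finset (ZMod P × Bool), R = fun c => univ.filter
      (fun v : ZMod P × Bool => ((((v.1.val + P) / 2 : ℕ) : ZMod P), c) ∈ B) := ⟨_, rfl⟩
  have hZc : ∀ c, (Z c).card ≤ 4 * B.card := fun c => by rw [hZ]; exact fibc P 0 (Nat.zero_le _) B c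
  have hRc : ∀ c, (R c).card ≤ 4 * B.card := fun c => by rw [hR]; exact fibc P P le_rfl B c
  have h2 := cnt P {b : Blk P | LabOK (fun r => τ (bvar b r))}
    (T ∪ (B ∪ (Z false ∪ (Z true ∪ (R false ∪ R true))))) (by
    intro b hb
    obtain ⟨-, -, -, -, h5⟩ := hb
    have key : ∀ t5 t6 t7 t8 t9, τ (zf b.2.2.2.1, false) = .A t5 → τ (zf b.2.2.2.1, true) = .A t6 →
        τ (rf b.2.2.2.1, false) = .A t7 → τ (rf b.2.2.2.1, true) = .A t8 → τ b.2.2.2 = .A t9 →
        t9 = t5 + t6 ∧ t9 = t7 + t8 + 1 := h5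
    by_cases c9 : ∃ t, τ b.2.2.2 = .A t
    swap
    · refine mem_union_right _ (mem_union_left _ ?_)
      rw [hB, mem_filter]
      exact ⟨mem_univ _, c9⟩
    by_cases c5 : ∃ t, τ (zf b.2.2.2.1, false) = .A t
    swap
    · refine mem_union_right _ (mem_union_right _ (mem_union_left _ ?_))
      rw [hZ, mem_filter, hB, mem_filter]
      exact ⟨mem_univ _, mem_univ _, c5⟩
    by_cases c6 : ∃ t, τ (zf b.2.2.2.1, true) = .A t
    swap
    · refine mem_union_right _ (mem_union_right _ (mem_union_right _ (mem_union_left _ ?_)))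
      rw [hZ, mem_filter, hB, mem_filter]
      exact ⟨mem_univ _, mem_univ _, c6⟩
    by_cases c7 : ∃ t, τ (rf b.2.2.2.1, false) = .A t
    swap
    · refine mem_union_right _ (mem_union_right _ (mem_union_right _ (mem_union_right _
        (mem_union_left _ ?_))))
      rw [hR, mem_filter, hB, mem_filter]
      exact ⟨mem_univ _, mem_univ _, c7⟩
    by_cases c8 : ∃ t, τ (rf b.2.2.2.1, true) = .A t
    swap
    · refine mem_union_right _ (mem_union_right _ (mem_union_right _ (mem_union_right _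
        (mem_union_right _ ?_))))
      rw [hR, mem_filter, hB, mem_filter]
      exact ⟨mem_univ _, mem_univ _, c8⟩
    obtain ⟨t9, c9⟩ := c9
    obtain ⟨t5, c5⟩ := c5
    obtain ⟨t6, c6⟩ := c6
    obtain ⟨t7, c7⟩ := c7
    obtain ⟨t8, c8⟩ := c8
    have k := key t5 t6 t7 t8 t9 c5 c6 c7 c8 c9
    refine mem_union_left _ ?_
    rw [hT, mem_filter, gl_eq τ _ t9 c9, gl_eq τ _ t5 c5, gl_eq τ _ t6 c6, gl_eq τ _ t7 c7,
      gl_eq τ _ t8 c8]
    exact ⟨mem_univ _, k⟩)
  have h3 : (T ∪ (B ∪ (Z false ∪ (Z true ∪ (R false ∪ R true))))).card ≤ T.card + 17 * B.card := by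
    have u1 := card_union_le T (B ∪ (Z false ∪ (Z true ∪ (R false ∪ R true))))
    have u2 := card_union_le B (Z false ∪ (Z true ∪ (R false ∪ R true)))
    have u3 := card_union_le (Z false) (Z true ∪ (R false ∪ R true))
    have u4 := card_union_le (Z true) (R false ∪ R true)
    have u5 := card_union_le (R false) (R true)
    have z1 := hZc false
    have z2 := hZc true
    have z3 := hRc false
    have z4 := hRc true
    omega
  have h4 : (((T ∪ (B ∪ (Z false ∪ (Z true ∪ (R false ∪ R true))))).card : ℕ) : ℝ) ≤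
      (T.card : ℝ) + 17 * (B.card : ℝ) := by exact_mod_cast h3
  rw [hBc]
  have h5 : (T.card : ℝ) ≤ 9 / 10 * (2 * P) := by
    rw [hT]
    exact h1
  refine h2.trans ?_
  have h6 : (0 : ℝ) ≤ 32 * (P : ℝ) ^ 3 := by positivity
  have h7 : (((T ∪ (B ∪ (Z false ∪ (Z true ∪ (R false ∪ R true))))).card : ℕ) : ℝ) ≤
      9 / 10 * (2 * P) + 17 * (B.card : ℝ) := by linarith
  refine (mul_le_mul_of_nonneg_left h7 h6).trans (le_of_eq ?_)
  ring

end Pool.Agent.H331.CS
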